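import Mathlib
import Pool.Agent.H81.P4.Main

set_option autoImplicit false

/-!
The matrix part of the rooted tree statement for weights without removable circuits (MP_a46c6f_co):
pairs and paths split or have own places.
-/

namespace Pool.Agent.H97.Q

open Pool.Agent.H17.P3

variable {V : Type} [Fintype V] [DecidableEq V]

/-- a closed pair -/
def CP (M : V → V → ZMod 2) (u v : V) : Prop := M u u = M v v ∧ M u v ≠ M u u

/-- a midpoint -/
def Mid (M : V → V → ZMod 2) (u v : V) : Prop :=
  ∃ g, M g g ≠ M u u ∧ M g u = M g g ∧ M g v = M g g ∧ ∀ x, M u x = M v x → M g x = M u x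

/-- the set `T` splits at `g`, up to the columns in `Y` -/
def Sp (M : V → V → ZMod 2) (T : Finset V) (g : V) (Y : Finset V) : Prop :=
  ∃ σ : V → ZMod 2, ∑ x ∈ T, σ x = 1 ∧ (∀ w ∈ T, ∑ x ∈ T, M w x * σ x + M w g = σ w) ∧
    ∀ w, ∑ x ∈ T, M w x = 0 → w ∉ Y → ∑ x ∈ T, M w x * σ x + M w g = 0

/-- closed pairs and paths with the colours `0110` -/
def Good (M : V → V → ZMod 2) (T : Finset V) : Prop :=
  (∃ u v, CP M u v ∧ T = {u, v}) ∨
    ∃ a b c d, IsP4 M a b c d ∧ M a a = 0 ∧ M b b = 1 ∧ M c c = 1 ∧ M d d = 0 ∧ T = {a, b, c, d}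

/-- the data -/
structure MS (M : V → V → ZMod 2) (S : Finset V → Finset V → Prop) : Prop where
  sym : ∀ x y, M x y = M y x
  ex : ∀ T, Good M T → (∃ g, Sp M T g ∅) ∨ ∃ Y, Y.Nonempty ∧ S T Y
  own : ∀ T Y, Good M T → S T Y → ∀ y ∈ Y, Sp M T y Y
  zero : ∀ T Y, Good M T → S T Y → ∀ y ∈ Y, ∑ x ∈ T, M y x = 0
  mono : ∀ T Y, Good M T → S T Y → ∀ T', Good M T' →
    (∀ c, ∑ x ∈ T, M c x = 0 → c ∉ Y → ∑ x ∈ T', M c x = 0 ∧ c ∉ T') →
    (∀ c, ∑ x ∈ T, M c x ≠ 0 → (∑ x ∈ T', M c x = 0 ∧ c ∉ T') ∨
      (∑ x ∈ T', M c x = 1 ∧ (c ∈ T' ↔ c ∈ T))) →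
    (∃ g, Sp M T' g ∅) ∨ ∃ Y', Y' ⊆ Y ∧ Y'.Nonempty ∧ S T' Y'

variable {M : V → V → ZMod 2} {S : Finset V → Finset V → Prop}

omit [Fintype V] [DecidableEq V] in
theorem CP.ne {u v : V} (h : CP M u v) : u ≠ v := by
  rintro rfl
  exact h.2 rfl

omit [Fintype V] in
/-- the meaning of a splitting for a closed pair -/
theorem pair_sp (hs : ∀ x y, M x y = M y x) {u v g : V} {Y : Finset V} (h : CP M u v)
    (hsp : Sp M {u, v} g Y) :
    M g u = M u v ∧ M g v = M u v ∧ ∀ c, c ∉ Y → M u c = M v c → M g c = M u c := by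
  obtain ⟨huu, huv⟩ := h
  have hne : u ≠ v := by
    rintro rfl
    exact huv rfl
  obtain ⟨σ, h1, h2, h3⟩ := hsp
  simp only [Finset.sum_pair hne] at h1 h2 h3
  have e1 := h2 u (by simp)
  have e2 := h2 v (by simp)
  rw [hs v u, ← huu, hs v g] at e2
  rw [hs u g] at e1
  have hgu : M g u = M u v ∧ M g v = M u v := by
    revert e1 e2 h1 huv
    generalize M u u = a
    generalize M u v = b
    generalize M g u = c
    generalize M g v = d
    generalize σ u = s
    generalize σ v = t
    revert a b c d s t
    decide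
  refine ⟨hgu.1, hgu.2, ?_⟩
  intro x hxY hx
  have e4 := h3 x (by rw [hs x u, hs x v, hx, CharTwo.add_self_eq_zero]) hxY
  rw [hs x u, hs x v, ← hx, hs x g] at e4
  revert e4 h1
  generalize M u x = b
  generalize M g x = c
  generalize σ u = s
  generalize σ v = t
  revert b c s t
  decide

omit [Fintype V] in
/-- a splitting closed pair has a midpoint -/
theorem mid_of_sp (hs : ∀ x y, M x y = M y x) {u v g : V} (h : CP M u v)
    (hsp : Sp M {u, v} g ∅) : Mid M u v := by
  obtain ⟨h1, h2, h3⟩ := pair_sp hs h hsp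
  have h4 : M g g = M u v := by
    rw [h3 g (by simp) (by rw [hs u g, hs v g, h1, h2]), hs u g, h1]
  exact ⟨g, by rw [h4]; exact h.2, by rw [h1, h4], by rw [h2, h4],
    fun x hx => h3 x (by simp) hx⟩

omit [Fintype V] in
/-- the meaning of a splitting for a path with the colours `0110` -/
theorem p4_sp (hM : ∀ x y, M x y = M y x) {a b c d g : V} {Y : Finset V} (h4 : IsP4 M a b c d)
    (haa : M a a = 0) (hbb : M b b = 1) (hcc : M c c = 1) (hdd : M d d = 0)
    (hsp : Sp M {a, b, c, d} g Y) :
    Bad M a b c d g ∧ ∀ y, y ∉ Y → M a y = M b y → M a y = M c y → M a y = M d y →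
      M g y = M a y := by
  obtain ⟨hab, hbc, hcd, hac, had, hbd⟩ := h4
  have n01 : (0 : ZMod 2) ≠ 1 := by decide
  have nab : a ≠ b := by
    rintro rfl
    exact n01 (haa.symm.trans hbb)
  have nac : a ≠ c := by
    rintro rfl
    exact n01 (haa.symm.trans hcc)
  have nad : a ≠ d := by
    rintro rfl
    exact n01 (hbd.symm.trans (by rw [hM b a]; exact hab))
  have nbc : b ≠ c := by
    rintro rfl
    exact n01 (hac.symm.trans hab)
  have nbd : b ≠ d := by
    rintro rfl
    exact n01 (hdd.symm.trans hbb)
  have ncd : c ≠ d := by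
    rintro rfl
    exact n01 (hdd.symm.trans hcc)
  have hsum : ∀ f : V → ZMod 2, ∑ x ∈ ({a, b, c, d} : Finset V), f x =
      f a + (f b + (f c + f d)) := by
    intro f
    rw [Finset.sum_insert (by simp [nab, nac, nad]), Finset.sum_insert (by simp [nbc, nbd]),
      Finset.sum_pair ncd]
  obtain ⟨σ, h1, h2, h3⟩ := hsp
  simp only [hsum] at h1 h2 h3
  have ea := h2 a (by simp)
  have eb := h2 b (by simp)
  have ec := h2 c (by simp)
  have ed := h2 d (by simp)
  rw [haa, hab, hac, had, hM a g] at ea
  rw [hM b a, hab, hbb, hbc, hbd, hM b g] at eb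
  rw [hM c a, hM c b, hac, hbc, hcc, hcd, hM c g] at ec
  rw [hM d a, hM d b, hM d c, had, hbd, hcd, hdd, hM d g] at ed
  refine ⟨⟨?_, ?_⟩, ?_⟩
  · clear eb ec h2 h3
    revert ea ed h1
    generalize M g a = x
    generalize M g d = y
    generalize σ a = s
    generalize σ b = t
    generalize σ c = p
    generalize σ d = q
    revert x y s t p q
    decide
  · clear ea ed h2 h3
    revert eb ec h1
    generalize M g b = x
    generalize M g c = y
    generalize σ a = s
    generalize σ b = t
    generalize σ c = p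
    generalize σ d = q
    revert x y s t p q
    decide
  · intro y hy y1 y2 y3
    have e4 := h3 y (by
      rw [hM y a, hM y b, hM y c, hM y d, ← y1, ← y2, ← y3]
      generalize M a y = s
      revert s
      decide) hy
    rw [hM y a, hM y b, hM y c, hM y d, ← y1, ← y2, ← y3, hM y g] at e4
    clear ea eb ec ed h2 h3
    revert e4 h1
    generalize M a y = x
    generalize M g y = y
    generalize σ a = s
    generalize σ b = t
    generalize σ c = p
    generalize σ d = q
    revert x y s t p q
    decide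

omit [Fintype V] in
/-- an own place is a bad point which agrees with the path in its constant columns -/
theorem MS.p4_own (h : MS M S) {a b c d : V} {Y : Finset V} (h4 : IsP4 M a b c d)
    (haa : M a a = 0) (hbb : M b b = 1) (hcc : M c c = 1) (hdd : M d d = 0)
    (hY : S {a, b, c, d} Y) {g : V} (hg : g ∈ Y) :
    Bad M a b c d g ∧ ∀ y, M a y = M b y → M a y = M c y → M a y = M d y → M g y = M a y := by
  have hgood : Good M {a, b, c, d} := Or.inr ⟨a, b, c, d, h4, haa, hbb, hcc, hdd, rfl⟩
  have key : ∀ g ∈ Y, _ := fun g hg => p4_sp h.sym h4 haa hbb hcc hdd (h.own _ _ hgood hY g hg)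
  refine ⟨(key g hg).1, ?_⟩
  intro y y1 y2 y3
  by_cases hy : y ∈ Y
  · exfalso
    apply (key y hy).1.1
    rw [h.sym y a, h.sym y d, y3]
  · exact (key g hg).2 y hy y1 y2 y3

omit [Fintype V] in
theorem z2_ne {a b c : ZMod 2} (h1 : a ≠ c) (h2 : b ≠ c) : a = b := by
  revert a b c
  decide

omit [Fintype V] in
/-- inside the own places of a closed pair everything happens inside -/
theorem MS.mono_in (h : MS M S) {u v : V} {Y : Finset V} (hcp : CP M u v) (hY : S {u, v} Y)
    (T' : Finset V) (hT' : T' ⊆ Y) (hgood : Good M T') (hev : ∑ _x ∈ T', (1 : ZMod 2) = 0) :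
    (∃ g, Sp M T' g ∅) ∨ ∃ Y', Y' ⊆ Y ∧ Y'.Nonempty ∧ S T' Y' := by
  have hne := hcp.ne
  have hg0 : Good M {u, v} := Or.inl ⟨u, v, hcp, rfl⟩
  have own : ∀ y ∈ Y, _ := fun y hy => pair_sp h.sym hcp (h.own _ _ hg0 hY y hy)
  have zero : ∀ y ∈ Y, M y u + M y v = 0 := fun y hy => by
    have := h.zero _ _ hg0 hY y hy
    rwa [Finset.sum_pair hne] at this
  refine h.mono _ _ hg0 hY T' hgood ?_ ?_
  · intro c hc hcY
    rw [Finset.sum_pair hne] at hc
    refine ⟨?_, fun h0 => hcY (hT' h0)⟩
    have huv : M u c = M v c := by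
      rw [h.sym u c, h.sym v c]
      revert hc
      generalize M c u = a
      generalize M c v = b
      revert a b
      decide
    have h1 : ∀ x ∈ T', M c x = M u c * 1 := by
      intro x hx
      rw [mul_one, h.sym c x]
      exact (own x (hT' hx)).2.2 c hcY huv
    rw [Finset.sum_congr rfl h1, ← Finset.mul_sum, hev, mul_zero]
  · intro c hc
    rw [Finset.sum_pair hne] at hc
    have hcY : c ∉ Y := fun h0 => hc (zero c h0)
    have hcT : c ∉ T' := fun h0 => hcY (hT' h0)
    by_cases hcu : c = u
    · left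
      refine ⟨?_, hcT⟩
      have h1 : ∀ x ∈ T', M c x = M u v * 1 := by
        intro x hx
        rw [mul_one, hcu, h.sym u x]
        exact (own x (hT' hx)).1
      rw [Finset.sum_congr rfl h1, ← Finset.mul_sum, hev, mul_zero]
    by_cases hcv : c = v
    · left
      refine ⟨?_, hcT⟩
      have h1 : ∀ x ∈ T', M c x = M u v * 1 := by
        intro x hx
        rw [mul_one, hcv, h.sym v x]
        exact (own x (hT' hx)).2.1
      rw [Finset.sum_congr rfl h1, ← Finset.mul_sum, hev, mul_zero]
    by_cases h0 : ∑ x ∈ T', M c x = 0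
    · exact Or.inl ⟨h0, hcT⟩
    · right
      refine ⟨?_, ?_⟩
      · revert h0
        generalize ∑ x ∈ T', M c x = a
        revert a
        decide
      · constructor
        · exact fun h1 => absurd h1 hcT
        · intro h1
          rw [Finset.mem_insert, Finset.mem_singleton] at h1
          rcases h1 with h1 | h1
          · exact absurd h1 hcu
          · exact absurd h1 hcv

/-- **closed pairs with own places have midpoints** -/
theorem MS.key (h : MS M S) : ∀ (n : ℕ) (u v : V), CP M u v → ∀ Y : Finset V, Y.card ≤ n →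
    Y.Nonempty → S {u, v} Y → Mid M u v := by
  intro n
  induction n with
  | zero =>
    intro u v _ Y hY hne _
    exact absurd (Finset.card_pos.2 hne) (by omega)
  | succ n ih =>
    intro u v hcp Y hYn hYne hY
    by_contra hmid
    have hne := hcp.ne
    have hg0 : Good M {u, v} := Or.inl ⟨u, v, hcp, rfl⟩
    have own : ∀ y ∈ Y, M y u = M u v ∧ M y v = M u v ∧
        ∀ c, c ∉ Y → M u c = M v c → M y c = M u c :=
      fun y hy => pair_sp h.sym hcp (h.own _ _ hg0 hY y hy)
    have zero : ∀ y ∈ Y, M y u + M y v = 0 := fun y hy => by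
      have := h.zero _ _ hg0 hY y hy
      rwa [Finset.sum_pair hne] at this
    have hmm : M u v ≠ M u u := hcp.2
    have hA : ∀ g, M g g = M u v → M g u = M u v → M g v = M u v →
        (∀ c, c ∉ Y → M u c = M v c → M g c = M u c) → (∀ c ∈ Y, M g c = M u v) → False := by
      intro g h1 h2 h3 h4 h5
      apply hmid
      refine ⟨g, by rw [h1]; exact hmm, by rw [h2, h1], by rw [h3, h1], ?_⟩
      intro x hx
      by_cases hxY : x ∈ Y
      · rw [h5 x hxY, h.sym u x, (own x hxY).1]
      · exact h4 x hxY hx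
    have hB : ∀ g, g ∉ Y → M g u = M u v → M g v = M u v → ∀ c ∈ Y, M g c = M u v := by
      intro g hg h1 h2 c hc
      rw [h.sym g c, (own c hc).2.2 g hg (by rw [h.sym u g, h.sym v g, h1, h2]), h.sym u g, h1]
    -- closed pairs inside
    have hC : ∀ x ∈ Y, ∀ y ∈ Y, CP M x y → ∃ g ∈ Y, M g g ≠ M x x ∧ M g x = M g g ∧
        M g y = M g g ∧ ∀ c, M x c = M y c → M g c = M x c := by
      intro x hx y hy hxy
      have hxyne := hxy.ne
      have hsub : ({x, y} : Finset V) ⊆ Y := by
        intro t ht
        rw [Finset.mem_insert, Finset.mem_singleton] at ht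
        rcases ht with rfl | rfl <;> assumption
      have hm : Mid M x y := by
        rcases h.mono_in hcp hY {x, y} hsub (Or.inl ⟨x, y, hxy, rfl⟩)
          (by rw [Finset.sum_pair hxyne]; decide) with ⟨g, hg⟩ | ⟨Y', hY', hne', hS'⟩
        · exact mid_of_sp h.sym hxy hg
        · refine ih x y hxy Y' ?_ hne' hS'
          have hxY' : x ∉ Y' := by
            intro h0
            have h1 := h.zero _ _ (Or.inl ⟨x, y, hxy, rfl⟩) hS' x h0
            rw [Finset.sum_pair hxyne] at h1
            have h2 := hxy.2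
            revert h1 h2
            generalize M x x = a
            generalize M x y = b
            revert a b
            decide
          have h2 : Y'.card < Y.card := Finset.card_lt_card ⟨hY', fun h0 => hxY' (h0 hx)⟩
          omega
      obtain ⟨g, g1, g2, g3, g4⟩ := hm
      refine ⟨g, ?_, g1, g2, g3, g4⟩
      by_contra hgY
      have hu : M g u = M u v := by
        rw [g4 u (by rw [(own x hx).1, (own y hy).1]), (own x hx).1]
      have hv : M g v = M u v := by
        rw [g4 v (by rw [(own x hx).2.1, (own y hy).2.1]), (own x hx).2.1]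
      have h5 := hB g hgY hu hv
      refine hA g ?_ hu hv ?_ h5
      · rw [← g2, h5 x hx]
      · intro c hc hcc
        rw [g4 c (by rw [(own x hx).2.2 c hc hcc, (own y hy).2.2 c hc hcc]),
          (own x hx).2.2 c hc hcc]
    -- paths inside
    have hD : ∀ a ∈ Y, ∀ b ∈ Y, ∀ c ∈ Y, ∀ d ∈ Y, IsP4 M a b c d → M a a = 0 → M b b = 1 →
        M c c = 1 → M d d = 0 → ∃ g ∈ Y, Bad M a b c d g ∧
          ∀ y, M a y = M b y → M a y = M c y → M a y = M d y → M g y = M a y := by
      intro a ha b hb c hc d hd h4 haa hbb hcc hdd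
      have hsub : ({a, b, c, d} : Finset V) ⊆ Y := by
        intro t ht
        simp only [Finset.mem_insert, Finset.mem_singleton] at ht
        rcases ht with rfl | rfl | rfl | rfl <;> assumption
      have hgood : Good M {a, b, c, d} := Or.inr ⟨a, b, c, d, h4, haa, hbb, hcc, hdd, rfl⟩
      have hev : ∑ _x ∈ ({a, b, c, d} : Finset V), (1 : ZMod 2) = 0 := by
        obtain ⟨hab, hbc, hcd, hac, had, hbd⟩ := h4
        have n01 : (0 : ZMod 2) ≠ 1 := by decide
        have nab : a ≠ b := by
          rintro rfl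
          exact n01 (haa.symm.trans hbb)
        have nac : a ≠ c := by
          rintro rfl
          exact n01 (haa.symm.trans hcc)
        have nad : a ≠ d := by
          rintro rfl
          exact n01 (hbd.symm.trans (by rw [h.sym b a]; exact hab))
        have nbc : b ≠ c := by
          rintro rfl
          exact n01 (hac.symm.trans hab)
        have nbd : b ≠ d := by
          rintro rfl
          exact n01 (hdd.symm.trans hbb)
        have ncd : c ≠ d := by
          rintro rfl
          exact n01 (hdd.symm.trans hcc)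
        rw [Finset.sum_insert (by simp [nab, nac, nad]), Finset.sum_insert (by simp [nbc, nbd]),
          Finset.sum_pair ncd]
        decide
      rcases h.mono_in hcp hY _ hsub hgood hev with ⟨g, hg⟩ | ⟨Y', hY', ⟨y, hy⟩, hS'⟩
      · obtain ⟨h1, h2⟩ := p4_sp h.sym h4 haa hbb hcc hdd hg
        refine ⟨g, ?_, h1, fun y => h2 y (by simp)⟩
        by_contra hgY
        have hu : M g u = M u v := by
          rw [h2 u (by simp) (by rw [(own a ha).1, (own b hb).1])
            (by rw [(own a ha).1, (own c hc).1]) (by rw [(own a ha).1, (own d hd).1]), (own a ha).1]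
        have hv : M g v = M u v := by
          rw [h2 v (by simp) (by rw [(own a ha).2.1, (own b hb).2.1])
            (by rw [(own a ha).2.1, (own c hc).2.1]) (by rw [(own a ha).2.1, (own d hd).2.1]),
            (own a ha).2.1]
        have h5 := hB g hgY hu hv
        exact h1.1 (by rw [h5 a ha, h5 d hd])
      · obtain ⟨h1, h2⟩ := h.p4_own h4 haa hbb hcc hdd hS' hy
        exact ⟨y, hY' hy, h1, h2⟩
    -- the structure on the own places
    have hP : Pairs (fun x y : {x // x ∈ Y} => M x.1 y.1) := by
      intro x y h1 h2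
      obtain ⟨g, hg, g1, g2, g3, g4⟩ := hC x.1 x.2 y.1 y.2 ⟨h1, h2⟩
      exact ⟨⟨g, hg⟩, g1, g2, g3, fun c hc => g4 c.1 hc⟩
    have hQ : P4Split (fun x y : {x // x ∈ Y} => M x.1 y.1) := by
      intro a b c d h4 haa hbb hcc hdd
      obtain ⟨g, hg, g1, g2⟩ := hD a.1 a.2 b.1 b.2 c.1 c.2 d.1 d.2
        ⟨h4.ab, h4.bc, h4.cd, h4.ac, h4.ad, h4.bd⟩ haa hbb hcc hdd
      exact ⟨⟨g, hg⟩, g1, fun y h1 h2 h3 => g2 y.1 h1 h2 h3⟩
    have hfree := Pool.Agent.H81.P4.P3_holds {x // x ∈ Y} (fun x y => M x.1 y.1)
      (fun x y => h.sym x.1 y.1) hP hQ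
    have : Nonempty {x // x ∈ Y} := by
      obtain ⟨y, hy⟩ := hYne
      exact ⟨⟨y, hy⟩⟩
    have hroot : ∃ r ∈ Y, ∃ l, ∀ y ∈ Y, M r y = l := by
      rcases Pool.Agent.H81.P4.iso_or_full (fun x y => h.sym x.1 y.1) hP hfree with
        ⟨x, hx⟩ | ⟨x, hx⟩
      · exact ⟨x.1, x.2, 0, fun y hy => hx ⟨y, hy⟩⟩
      · exact ⟨x.1, x.2, 1, fun y hy => hx ⟨y, hy⟩⟩
    obtain ⟨r, hr, l, hl⟩ := hroot
    by_cases hlm : l = M u v
    · refine hA r (by rw [hl r hr, hlm]) (own r hr).1 (own r hr).2.1 (own r hr).2.2 ?_
      intro c hc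
      rw [hl c hc, hlm]
    · have hrr : M r r = M u u := by
        rw [hl r hr]
        exact z2_ne hlm hmm.symm
      have hru : CP M r u := ⟨hrr, by rw [(own r hr).1, hrr]; exact hmm⟩
      have hrv : r ≠ v := by
        rintro rfl
        have h1 := zero r hr
        rw [hcp.1] at hmm
        rw [h.sym r u] at h1
        revert h1 hmm
        generalize M u r = a
        generalize M r r = b
        revert a b
        decide
      have hgr : Good M {r, u} := Or.inl ⟨r, u, hru, rfl⟩
      have hm : (∃ g, Sp M {r, u} g ∅) ∨ ∃ Y', Y' ⊆ Y ∧ Y'.Nonempty ∧ S {r, u} Y' := by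
        refine h.mono _ _ hg0 hY {r, u} hgr ?_ ?_
        · intro c hc hcY
          rw [Finset.sum_pair hne] at hc
          have huv : M u c = M v c := by
            rw [h.sym u c, h.sym v c]
            revert hc
            generalize M c u = a
            generalize M c v = b
            revert a b
            decide
          rw [Finset.sum_pair hru.ne, h.sym c r, (own r hr).2.2 c hcY huv, h.sym c u]
          refine ⟨CharTwo.add_self_eq_zero _, ?_⟩
          intro h0
          rw [Finset.mem_insert, Finset.mem_singleton] at h0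
          rcases h0 with h0 | h0
          · exact hcY (h0 ▸ hr)
          · subst h0
            have h9 := hmm
            revert hc h9
            generalize M c v = a
            generalize M c c = b
            revert a b
            decide
        · intro c hc
          rw [Finset.sum_pair hne] at hc
          have hcr : c ≠ r := by
            rintro rfl
            exact hc (zero c hr)
          rw [Finset.sum_pair hru.ne]
          by_cases hcu : c = u
          · right
            subst hcu
            refine ⟨?_, ?_⟩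
            · rw [h.sym c r, (own r hr).1]
              have h9 := hmm
              revert h9
              generalize M c v = a
              generalize M c c = b
              revert a b
              decide
            · simp
          by_cases hcv : c = v
          · left
            subst hcv
            refine ⟨?_, ?_⟩
            · rw [h.sym c r, (own r hr).2.1, h.sym c u]
              exact CharTwo.add_self_eq_zero _
            · simp [hcr, hcu]
          by_cases h0 : M c r + M c u = 0
          · exact Or.inl ⟨h0, by simp [hcr, hcu]⟩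
          · right
            refine ⟨?_, by simp [hcr, hcu, hcv]⟩
            revert h0
            generalize M c r + M c u = a
            revert a
            decide
      rcases hm with ⟨g, hg⟩ | ⟨Y', hY', ⟨y, hy⟩, hS'⟩
      · obtain ⟨h1, h2, h3⟩ := pair_sp h.sym hru hg
        rw [(own r hr).1] at h1 h2
        have h3' : ∀ c, M r c = M u c → M g c = M r c := fun c => h3 c (by simp)
        have hgg : M g g = M u v := by
          rw [h3' g (by rw [h.sym r g, h.sym u g, h1, h2]), h.sym r g, h1]
        have hgv : M g v = M u v := by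
          rw [h3' v (by rw [(own r hr).2.1]), (own r hr).2.1]
        have hgY : g ∉ Y := by
          intro h0
          apply hlm
          rw [← hl g h0, h.sym r g, h1]
        refine hA g hgg h2 hgv ?_ (hB g hgY h2 hgv)
        intro c hc hcc
        have h4 := (own r hr).2.2 c hc hcc
        rw [h3' c h4, h4]
      · have h1 := h.zero _ _ hgr hS' y hy
        rw [Finset.sum_pair hru.ne, h.sym y r, hl y (hY' hy), (own y (hY' hy)).1] at h1
        have h9 : ∀ p q : ZMod 2, p + q = 0 → p = q := by decide
        exact hlm (h9 _ _ h1)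

/-- **Pairs** -/
theorem MS.pairs (h : MS M S) : Pairs M := by
  intro u v huu huv
  have hcp : CP M u v := ⟨huu, huv⟩
  rcases h.ex {u, v} (Or.inl ⟨u, v, hcp, rfl⟩) with ⟨g, hg⟩ | ⟨Y, hne, hY⟩
  · exact mid_of_sp h.sym hcp hg
  · exact h.key Y.card u v hcp Y le_rfl hne hY

omit [Fintype V] in
/-- **P4Split** -/
theorem MS.p4split (h : MS M S) : P4Split M := by
  intro a b c d h4 haa hbb hcc hdd
  rcases h.ex {a, b, c, d} (Or.inr ⟨a, b, c, d, h4, haa, hbb, hcc, hdd, rfl⟩) with
    ⟨g, hg⟩ | ⟨Y, ⟨y, hy⟩, hY⟩
  · obtain ⟨h1, h2⟩ := p4_sp h.sym h4 haa hbb hcc hdd hg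
    exact ⟨g, h1, fun y => h2 y (by simp)⟩
  · obtain ⟨h1, h2⟩ := h.p4_own h4 haa hbb hcc hdd hY hy
    exact ⟨y, h1, h2⟩

end Pool.Agent.H97.Q
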