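import Pool.Agent.H97.Q.Mat
import Pool.Agent.H77.P3.CodeSide
import Pool.Agent.H77.Q.Defs

set_option autoImplicit false

/-!
The code side of the rooted tree statement for weights without removable circuits (MP_a46c6f_co).
-/

namespace Pool.Agent.H97.Q

open Pool.Agent.H98.Code Pool.Agent.H17.TR Pool.Agent.H17.P3 Pool.Agent.H77.P3 Pool.Agent.H77.Q

variable {V : Type} [Fintype V]

/-- the word with first coordinate `p` -/
def wd (H : V → V → ZMod 2) (p : V → ZMod 2) : V → K :=
  fun v => (p v, deg H v * p v + lap H p v)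

/-- the word of the constant function -/
def om (H : V → V → ZMod 2) : V → K := fun v => (1, deg H v)

variable {B : Submodule (ZMod 2) (V → K)} {H : V → V → ZMod 2}

theorem wd_mem (hH : IsMat B H) (p : V → ZMod 2) : wd H p ∈ B := word_mem hH p

theorem lap_one (v : V) : lap H (fun _ => 1) v = 0 := by
  unfold lap
  apply Finset.sum_eq_zero
  intro w _
  rw [show (1 : ZMod 2) + 1 = 0 from by decide, mul_zero]

theorem om_mem (hH : IsMat B H) : om H ∈ B := by
  have h1 := wd_mem hH (fun _ => 1)
  have h2 : wd H (fun _ => 1) = om H := by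
    funext v
    unfold wd om
    rw [lap_one, mul_one, add_zero]
  rwa [h2] at h1

theorem om_ne (v : V) : om H v ≠ 0 := by
  intro h
  have := congrArg Prod.fst h
  simp [om] at this

theorem om_nez (v : V) : om H v ≠ z := by
  intro h
  have := congrArg Prod.fst h
  simp [om, z] at this

/-- the Laplacian of a word -/
theorem lap_kf (hH : IsMat B H) {u : V → K} (hu : u ∈ B) (v : V) :
    lap H (fun w => (u w).1) v = kf (u v) (om H v) := by
  have h1 := snd_eq hH hu v
  unfold kf om
  rw [h1, mul_one, mul_comm, ← add_assoc, CharTwo.add_self_eq_zero, zero_add]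

theorem lap_kf_wd (p : V → ZMod 2) (v : V) : kf (wd H p v) (om H v) = lap H p v := by
  unfold kf om wd
  simp only
  generalize lap H p v = a
  generalize deg H v = b
  generalize p v = c
  revert a b c
  decide

/-- a word is determined by its first coordinates -/
theorem eq_wd (hH : IsMat B H) {u : V → K} (hu : u ∈ B) : u = wd H (fun w => (u w).1) := by
  funext v
  exact Prod.ext rfl (snd_eq hH hu v)

/-- words below `om` do not split -/
theorem no_split (hB : IsCode B) (hH : IsMat B H) {k : V → K}
    (hk : ∀ v, k v = 0 ∨ k v = om H v) {g : V} (hs : Splits B k g) : False := by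
  classical
  obtain ⟨c₁, hc₁, c₂, hc₂, hs, hg1, hg2, hd⟩ := hs
  have hf := hB.iso c₁ hc₁ _ (om_mem hH)
  unfold form at hf
  rw [Finset.sum_eq_single g] at hf
  · rw [hg1] at hf
    revert hf
    simp [kf, z, om]
  · intro v _ hvg
    have hsv : c₁ v + c₂ v = k v := congrFun hs v
    rcases hd v hvg with h1 | h1
    · rw [h1, kf_zero_left]
    · rw [h1, add_zero] at hsv
      rw [hsv]
      rcases hk v with h2 | h2
      · rw [h2, kf_zero_left]
      · rw [h2, kf_self]
  · intro hh
    exact absurd (Finset.mem_univ g) hh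

theorem zfree_om {k : V → K} (hk : ∀ v, k v = 0 ∨ k v = om H v) : ZFree k := by
  intro v hv
  rcases hk v with h | h
  · rw [h] at hv
    have := congrArg Prod.snd hv
    simp [z] at this
  · rw [h] at hv
    exact om_nez v hv

/-- a minimal word through `v0` below `k` -/
theorem exists_min {k : V → K} (hk : k ∈ B) {v0 : V} (h0 : k v0 ≠ 0) :
    ∃ d ∈ B, (∀ v, d v = 0 ∨ d v = k v) ∧ d v0 ≠ 0 ∧ Irr B d := by
  classical
  have main : ∀ (n : ℕ) (k : V → K), k ∈ B → k v0 ≠ 0 →
      (Finset.univ.filter fun v => k v ≠ 0).card ≤ n →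
      ∃ d ∈ B, (∀ v, d v = 0 ∨ d v = k v) ∧ d v0 ≠ 0 ∧ Irr B d := by
    intro n
    induction n with
    | zero =>
      intro k _ h0 hn
      have : v0 ∈ (Finset.univ.filter fun v => k v ≠ 0) := by simp [h0]
      have := Finset.card_pos.2 ⟨v0, this⟩
      omega
    | succ n ih =>
      intro k hk h0 hn
      by_cases hI : Irr B k
      · exact ⟨k, hk, fun v => Or.inr rfl, h0, hI⟩
      unfold Irr at hI
      push Not at hI
      obtain ⟨d, hd, hdk, hd0, hdk'⟩ := hI
      -- `d` or `k + d`
      have hlt : ∀ d : V → K, (∀ v, d v = 0 ∨ d v = k v) → d ≠ k →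
          (Finset.univ.filter fun v => d v ≠ 0).card ≤ n := by
        intro d hdk hne
        have h1 : (Finset.univ.filter fun v => d v ≠ 0) ⊂
            (Finset.univ.filter fun v => k v ≠ 0) := by
          rw [Finset.ssubset_iff_of_subset]
          · have : ∃ v, d v ≠ k v := by
              by_contra hcon
              push Not at hcon
              exact hne (funext hcon)
            obtain ⟨v, hv⟩ := this
            refine ⟨v, ?_, ?_⟩
            · simp only [Finset.mem_filter, Finset.mem_univ, true_and]
              intro hkv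
              rcases hdk v with h | h
              · exact hv (h.trans hkv.symm)
              · exact hv h
            · simp only [Finset.mem_filter, Finset.mem_univ, true_and, not_not]
              rcases hdk v with h | h
              · exact h
              · exact absurd h hv
          · intro v hv
            simp only [Finset.mem_filter, Finset.mem_univ, true_and] at hv ⊢
            rcases hdk v with h | h
            · exact absurd h hv
            · rwa [← h]
        have := Finset.card_lt_card h1
        omega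
      have hstep : ∀ d ∈ B, (∀ v, d v = 0 ∨ d v = k v) → d ≠ k → d v0 ≠ 0 →
          ∃ d ∈ B, (∀ v, d v = 0 ∨ d v = k v) ∧ d v0 ≠ 0 ∧ Irr B d := by
        intro d hd hdk hne hd0
        obtain ⟨d', h1, h2, h3, h4⟩ := ih d hd hd0 (hlt d hdk hne)
        refine ⟨d', h1, ?_, h3, h4⟩
        intro v
        rcases h2 v with h | h
        · exact Or.inl h
        · rcases hdk v with h' | h'
          · exact Or.inl (h.trans h')
          · exact Or.inr (h.trans h')
      by_cases hdv : d v0 = 0
      · refine hstep (k + d) (B.add_mem hk hd) ?_ ?_ ?_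
        · intro v
          rcases hdk v with h | h
          · right
            rw [Pi.add_apply, h, add_zero]
          · left
            rw [Pi.add_apply, h, k_add_self]
        · intro h
          apply hd0
          funext v
          have h1 := congrFun h v
          rw [Pi.add_apply] at h1
          exact left_eq_add.1 h1.symm
        · rw [Pi.add_apply, hdv, add_zero]
          exact h0
      · exact hstep d hd hdk hdk' hdv
  exact main _ k hk h0 le_rfl

variable {e : V} {S : (V → K) → Finset V → Prop}

/-- the only word below `om` without the root is `0` -/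
theorem kernel (hB : IsCode B) (hS : RSides B e S) (hH : IsMat B H) :
    ∀ k ∈ B, (∀ v, k v = 0 ∨ k v = om H v) → k e = 0 → k = 0 := by
  classical
  have main : ∀ (n : ℕ) (u : V → K) (Y : Finset V), u ∈ B → (∀ v, u v = 0 ∨ u v = om H v) →
      u e = 0 → Irr B u → S u Y → Y.Nonempty → Y.card ≤ n → False := by
    intro n
    induction n with
    | zero =>
      intro u Y _ _ _ _ _ hY hn
      have := Finset.card_pos.2 hY
      omega
    | succ n ih =>
      intro u Y hu huo hue hI hSY hY hn
      obtain ⟨v0, hv0⟩ := hY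
      obtain ⟨k', hk', h1, h2, h3⟩ := hS.part u Y hSY (om H) (om_mem hH) (by
        intro v hv
        rcases huo v with h | h
        · exact absurd h hv
        · exact Or.inr h.symm)
      have hko : ∀ v, k' v = 0 ∨ k' v = om H v := by
        intro v
        by_cases hvY : v ∈ Y
        · exact Or.inr (h1 v hvY)
        by_cases huv : u v = 0
        · exact Or.inl (h2 v huv hvY)
        · rcases h3 v huv with h | h
          · exact Or.inl h
          · rcases huo v with h' | h'
            · exact absurd h' huv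
            · exact Or.inr (h.trans h')
      have hk0 : k' v0 ≠ 0 := by
        rw [h1 v0 hv0]
        exact om_ne v0
      obtain ⟨d, hd, hdk, hd0, hdI⟩ := exists_min hk' hk0
      have hdo : ∀ v, d v = 0 ∨ d v = om H v := by
        intro v
        rcases hdk v with h | h
        · exact Or.inl h
        · rcases hko v with h' | h'
          · exact Or.inl (h.trans h')
          · exact Or.inr (h.trans h')
      have hA : ∀ v, u v ≠ 0 → d v = 0 ∨ d v = u v := by
        intro v hv
        rcases hdk v with h | h
        · exact Or.inl h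
        · rcases h3 v hv with h' | h'
          · exact Or.inl (h.trans h')
          · exact Or.inr (h.trans h')
      have hC : ∀ v, u v = 0 → v ∉ Y → d v = 0 := by
        intro v hv hvY
        rcases hdk v with h | h
        · exact h
        · rw [h, h2 v hv hvY]
      rcases hS.mono u Y hSY hI d hd (zfree_om hdo) (fun h => hd0 (by rw [h]; rfl)) hdI hA hC with
        ⟨g, hg⟩ | ⟨Y', hY', hne, hS'⟩
      · exact no_split hB hH hdo hg
      · have hv0' : v0 ∉ Y' := fun h => hd0 (hS.zero d Y' hS' v0 h)
        have hlt : Y'.card < Y.card := Finset.card_lt_card ⟨hY', fun h0 => hv0' (h0 hv0)⟩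
        have hde : d e = 0 := hC e hue (hS.root u Y hSY)
        exact ih d Y' hd hdo hde hdI hS' hne (by omega)
  intro k hk hko hke
  by_contra hne
  have : ∃ v0, k v0 ≠ 0 := by
    by_contra hcon
    push Not at hcon
    exact hne (funext hcon)
  obtain ⟨v0, hv0⟩ := this
  obtain ⟨d, hd, hdk, hd0, hdI⟩ := exists_min hk hv0
  have hdo : ∀ v, d v = 0 ∨ d v = om H v := by
    intro v
    rcases hdk v with h | h
    · exact Or.inl h
    · rcases hko v with h' | h'
      · exact Or.inl (h.trans h')
      · exact Or.inr (h.trans h')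
  have hde : d e = 0 := by
    rcases hdk e with h | h
    · exact h
    · rw [h, hke]
  rcases hS.ex d hd (zfree_om hdo) hde (fun h => hd0 (by rw [h]; rfl)) hdI with
    ⟨g, hg⟩ | ⟨Y, hne', hSY⟩
  · exact no_split hB hH hdo hg
  · exact main _ d Y hd hdo hde hdI hSY hne' le_rfl

/-- the reduced Laplacian is injective -/
theorem inj' [DecidableEq V] (hB : IsCode B) (hS : RSides B e S) (hH : IsMat B H)
    (p : V → ZMod 2) (he : p e = 0) (h0 : ∀ v, v ≠ e → lap H p v = 0) : p = 0 := by
  have hle : lap H p e = 0 := by
    have h1 := lap_sum hH.sym p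
    rw [← Finset.add_sum_erase _ _ (Finset.mem_univ e)] at h1
    rw [Finset.sum_eq_zero (s := Finset.univ.erase e)
      (fun v hv => h0 v (Finset.ne_of_mem_erase hv)), add_zero] at h1
    exact h1
  have hl : ∀ v, lap H p v = 0 := by
    intro v
    by_cases hv : v = e
    · rw [hv, hle]
    · exact h0 v hv
  have h1 := kernel hB hS hH (wd H p) (wd_mem hH p) (by
    intro v
    unfold wd om
    rw [hl v, add_zero]
    rcases Pool.Agent.H77.P3.z2 (p v) with h | h
    · left
      rw [h, mul_zero]
      rfl
    · right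
      rw [h, mul_one]) (by
    unfold wd
    rw [hl e, he, mul_zero, add_zero]
    rfl)
  funext v
  exact congrArg Prod.fst (congrFun h1 v)

/-- the inverse of the reduced Laplacian -/
theorem exists_inv' [DecidableEq V] (hB : IsCode B) (hS : RSides B e S) (hH : IsMat B H) :
    ∃ M : V → V → ZMod 2, (∀ x y, M x y = M y x) ∧ (∀ x, M e x = 0) ∧
      (∀ u, u ≠ e → ∀ v, lap H (fun w => M w v) u = if u = v then 1 else 0) := by
  have hsurj : Function.Surjective
      (fun (p : V → ZMod 2) (v : V) => if v = e then p e else lap H p v) := by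
    rw [← Finite.injective_iff_surjective]
    intro p q hpq
    have hpe : p e = q e := by
      have := congrFun hpq e
      simpa using this
    have h1 : p + q = 0 := by
      apply inj' hB hS hH
      · rw [Pi.add_apply, hpe, CharTwo.add_self_eq_zero]
      · intro v hv
        have := congrFun hpq v
        simp only [if_neg hv] at this
        rw [lap_add, this, CharTwo.add_self_eq_zero]
    funext v
    have h2 := congrFun h1 v
    rw [Pi.add_apply, Pi.zero_apply] at h2
    revert h2
    generalize p v = a
    generalize q v = b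
    revert a b
    decide
  choose m hm using fun y : V => hsurj (fun v => if v = e then 0 else if v = y then 1 else 0)
  have hme : ∀ y, m y e = 0 := by
    intro y
    have := congrFun (hm y) e
    simpa using this
  have hml : ∀ y v, v ≠ e → lap H (m y) v = if v = y then 1 else 0 := by
    intro y v hv
    have := congrFun (hm y) v
    simpa only [if_neg hv] using this
  have hme' : ∀ v, m e v = 0 := by
    intro v
    have : m e = 0 := by
      apply inj' hB hS hH _ (hme e)
      intro v hv
      rw [hml e v hv, if_neg hv]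
    rw [this]
    rfl
  have hsy : ∀ x y, m x y = m y x := by
    intro x y
    by_cases hx : x = e
    · rw [hx, hme', hme]
    by_cases hy : y = e
    · rw [hy, hme', hme]
    have h1 := lap_adj hH.sym (m y) (m x)
    have h2 : ∑ v, m x v * lap H (m y) v = m x y := by
      rw [Finset.sum_eq_single y]
      · rw [hml y y hy, if_pos rfl, mul_one]
      · intro v _ hv
        by_cases hve : v = e
        · rw [hve, hme, zero_mul]
        · rw [hml y v hve, if_neg hv, mul_zero]
      · intro hh
        exact absurd (Finset.mem_univ y) hh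
    have h3 : ∑ v, lap H (m x) v * m y v = m y x := by
      rw [Finset.sum_eq_single x]
      · rw [hml x x hx, if_pos rfl, one_mul]
      · intro v _ hv
        by_cases hve : v = e
        · rw [hve, hme, mul_zero]
        · rw [hml x v hve, if_neg hv, zero_mul]
      · intro hh
        exact absurd (Finset.mem_univ x) hh
    rw [← h2, ← h3, h1]
  refine ⟨fun x y => m y x, fun x y => hsy y x, fun x => hme x, ?_⟩
  intro u hu v
  exact hml v u hu

/-- the inverse of the reduced Laplacian -/
structure Inv (e : V) (H M : V → V → ZMod 2) [DecidableEq V] : Prop where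
  sym : ∀ x y, M x y = M y x
  zero : ∀ x, M e x = 0
  inv : ∀ u, u ≠ e → ∀ v, lap H (fun w => M w v) u = if u = v then 1 else 0

/-- a closed irreducible set -/
structure TT (e : V) (M : V → V → ZMod 2) (T : Finset V) : Prop where
  he : e ∉ T
  ne : T.Nonempty
  even : ∑ _x ∈ T, (1 : ZMod 2) = 0
  col : ∀ w ∈ T, ∑ x ∈ T, M w x = 1
  irr : ∀ s : V → ZMod 2, ∑ x ∈ T, s x = 0 → (∀ v ∈ T, ∑ x ∈ T, M v x * s x = s v) →
    (∀ v ∈ T, s v = 0) ∨ ∀ v ∈ T, s v = 1

section
variable [DecidableEq V] {M : V → V → ZMod 2}

/-- the column of a set -/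
def qT (M : V → V → ZMod 2) (T : Finset V) : V → ZMod 2 := fun w => ∑ x ∈ T, M w x

theorem lap_qT (hH : IsMat B H) (hi : Inv e H M) {T : Finset V} (heT : e ∉ T)
    (heven : ∑ _x ∈ T, (1 : ZMod 2) = 0) (v : V) : lap H (qT M T) v = if v ∈ T then 1 else 0 := by
  have hlq' : ∀ v, lap H (qT M T) v = ∑ x ∈ T, lap H (fun w => M w x) v := by
    intro v
    unfold lap
    rw [Finset.sum_comm]
    refine Finset.sum_congr rfl fun w _ => ?_
    rw [← Finset.mul_sum]
    unfold qT
    rw [← Finset.sum_add_distrib]
  have hlq1 : ∀ v, v ≠ e → lap H (qT M T) v = if v ∈ T then 1 else 0 := by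
    intro v hv
    rw [hlq' v]
    rw [Finset.sum_congr rfl fun x _ => hi.inv v hv x]
    rw [Finset.sum_ite_eq]
  by_cases hv : v = e
  · subst hv
    rw [if_neg heT]
    have h1 := lap_sum hH.sym (qT M T)
    rw [← Finset.add_sum_erase _ _ (Finset.mem_univ v),
      Finset.sum_congr rfl fun x hx => hlq1 x (Finset.ne_of_mem_erase hx)] at h1
    rw [← Finset.sum_filter] at h1
    have h2 : (Finset.univ.erase v).filter (fun x => x ∈ T) = T := by
      ext x
      simp only [Finset.mem_filter, Finset.mem_erase, Finset.mem_univ, and_true]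
      constructor
      · exact fun h => h.2
      · intro hx
        exact ⟨fun h => heT (h ▸ hx), hx⟩
    rw [h2, heven, add_zero] at h1
    exact h1
  · exact hlq1 v hv

theorem qT_e (hi : Inv e H M) (T : Finset V) : qT M T e = 0 :=
  Finset.sum_eq_zero fun x _ => hi.zero x

theorem wd_qT (hH : IsMat B H) (hi : Inv e H M) {T : Finset V} (heT : e ∉ T)
    (heven : ∑ _x ∈ T, (1 : ZMod 2) = 0) (v : V) :
    wd H (qT M T) v = (qT M T v, deg H v * qT M T v + if v ∈ T then 1 else 0) := by
  unfold wd
  rw [lap_qT hH hi heT heven]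

theorem wd_e (hH : IsMat B H) (hi : Inv e H M) {T : Finset V} (hT : TT e M T) :
    wd H (qT M T) e = 0 := by
  rw [wd_qT hH hi hT.he hT.even, qT_e hi, if_neg hT.he, mul_zero, add_zero]
  rfl

theorem wd_eq_zero_iff (hH : IsMat B H) (hi : Inv e H M) {T : Finset V} (hT : TT e M T) (v : V) :
    wd H (qT M T) v = 0 ↔ qT M T v = 0 := by
  rw [wd_qT hH hi hT.he hT.even]
  constructor
  · intro h
    exact congrArg Prod.fst h
  · intro h
    have hvT : v ∉ T := by
      intro hv
      have h1 : qT M T v = 1 := hT.col v hv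
      rw [h] at h1
      exact absurd h1 (by decide)
    rw [h, if_neg hvT, mul_zero, add_zero]
    rfl

theorem wd_ne (hH : IsMat B H) (hi : Inv e H M) {T : Finset V} (hT : TT e M T) :
    wd H (qT M T) ≠ 0 := by
  intro hh
  obtain ⟨x, hx⟩ := hT.ne
  have h1 := (wd_eq_zero_iff hH hi hT x).1 (congrFun hh x)
  have h2 : qT M T x = 1 := hT.col x hx
  rw [h2] at h1
  exact absurd h1 (by decide)

theorem wd_zfree (hH : IsMat B H) (hi : Inv e H M) {T : Finset V} (hT : TT e M T) :
    ZFree (wd H (qT M T)) := by
  intro v hv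
  have h1 : qT M T v = 0 := congrArg Prod.fst hv
  have h2 := (wd_eq_zero_iff hH hi hT v).2 h1
  rw [h2] at hv
  have := congrArg Prod.snd hv
  simp [z] at this

/-- the classification of the small words -/
theorem small (hH : IsMat B H) (hi : Inv e H M) {T : Finset V} (hT : TT e M T) {b : V → K}
    (hb : b ∈ B) (h1 : ∀ v, wd H (qT M T) v ≠ 0 → b v = 0 ∨ b v = wd H (qT M T) v)
    (h2 : ∀ v, wd H (qT M T) v = 0 → kf (b v) (om H v) = 0) (h3 : b e = 0) :
    b = 0 ∨ b = wd H (qT M T) := by
  set p : V → ZMod 2 := fun w => (b w).1 with hp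
  have hpe : p e = 0 := congrArg Prod.fst h3
  have hlp : ∀ v, lap H p v = kf (b v) (om H v) := lap_kf hH hb
  have hlq : ∀ v, lap H (qT M T) v = if v ∈ T then 1 else 0 := lap_qT hH hi hT.he hT.even
  have hrec := fun w => recover hH hi.sym hi.zero hi.inv p hpe w
  have hrecq := fun w => recover hH hi.sym hi.zero hi.inv (qT M T) (qT_e hi T) w
  have hb1 : ∀ v, b v = wd H (qT M T) v → lap H p v = if v ∈ T then 1 else 0 := by
    intro v hv
    rw [hlp v, hv, lap_kf_wd, hlq]
  have hb0 : ∀ v, b v = 0 → lap H p v = 0 := by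
    intro v hv
    rw [hlp v, hv, kf_zero_left]
  have hout : ∀ v, v ∉ T → lap H p v = 0 := by
    intro v hv
    by_cases hw : wd H (qT M T) v = 0
    · rw [hlp v]
      exact h2 v hw
    · rcases h1 v hw with h | h
      · exact hb0 v h
      · rw [hb1 v h, if_neg hv]
  have hsum : ∀ f : V → ZMod 2, ∑ v, f v * lap H p v = ∑ x ∈ T, f x * lap H p x := by
    intro f
    symm
    apply Finset.sum_subset (Finset.subset_univ _)
    intro x _ hx
    rw [hout x hx, mul_zero]
  have hs0 : ∑ x ∈ T, lap H p x = 0 := by
    have h4 := hsum (fun _ => 1)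
    simp only [one_mul] at h4
    rw [← h4, lap_sum hH.sym]
  have hs1 : ∀ v ∈ T, ∑ x ∈ T, M v x * lap H p x = lap H p v := by
    intro v hv
    rw [← hsum, ← hrec v]
    have hw : wd H (qT M T) v ≠ 0 := by
      intro h0
      have h5 := (wd_eq_zero_iff hH hi hT v).1 h0
      have h6 : qT M T v = 1 := hT.col v hv
      rw [h5] at h6
      exact absurd h6 (by decide)
    rcases h1 v hw with h | h
    · rw [hb0 v h]
      exact congrArg Prod.fst h
    · rw [hb1 v h, if_pos hv]
      have h6 : qT M T v = 1 := hT.col v hv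
      rw [← h6]
      exact congrArg Prod.fst h
  rcases hT.irr (lap H p) hs0 hs1 with h | h
  · left
    have hl : ∀ v, lap H p v = 0 := by
      intro v
      by_cases hv : v ∈ T
      · exact h v hv
      · exact hout v hv
    have hp0 : ∀ v, p v = 0 := by
      intro v
      rw [hrec v]
      apply Finset.sum_eq_zero
      intro x _
      rw [hl x, mul_zero]
    rw [eq_wd hH hb]
    funext v
    show wd H p v = 0
    unfold wd
    rw [hl v, hp0 v, mul_zero, add_zero]
    rfl
  · right
    have hl : ∀ v, lap H p v = lap H (qT M T) v := by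
      intro v
      rw [hlq v]
      by_cases hv : v ∈ T
      · rw [if_pos hv]
        exact h v hv
      · rw [if_neg hv]
        exact hout v hv
    have hp0 : ∀ v, p v = qT M T v := by
      intro v
      rw [hrec v, hrecq v]
      exact Finset.sum_congr rfl fun x _ => by rw [hl x]
    rw [eq_wd hH hb]
    show wd H p = wd H (qT M T)
    rw [funext hp0]

theorem irr_wd (hH : IsMat B H) (hi : Inv e H M) {T : Finset V} (hT : TT e M T) :
    Irr B (wd H (qT M T)) := by
  intro d hd hdw
  refine small hH hi hT hd (fun v _ => hdw v) ?_ ?_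
  · intro v hv
    rcases hdw v with h | h
    · rw [h, kf_zero_left]
    · rw [h, hv, kf_zero_left]
  · rcases hdw e with h | h
    · exact h
    · rw [h, wd_e hH hi hT]

/-- from a word to a splitting of the set `T` -/
theorem sp_of_word (hH : IsMat B H) (hi : Inv e H M) {T : Finset V} (hT : TT e M T)
    {Y : Finset V} {c : V → K} (hc : c ∈ B) {g : V} (hgT : g ∉ T) (hce : (c e).1 = 0)
    (hg : kf (c g) (om H g) = 1)
    (h1 : ∀ v, v ≠ g → wd H (qT M T) v ≠ 0 → c v = 0 ∨ c v = wd H (qT M T) v)
    (h2 : ∀ v, v ≠ g → wd H (qT M T) v = 0 → kf (c v) (om H v) = 0)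
    (h3 : ∀ v, wd H (qT M T) v = 0 → v ∉ Y → (c v).1 = 0) : Sp M T g Y := by
  set p : V → ZMod 2 := fun w => (c w).1 with hp
  have hlp : ∀ v, lap H p v = kf (c v) (om H v) := lap_kf hH hc
  have hlq : ∀ v, lap H (qT M T) v = if v ∈ T then 1 else 0 := lap_qT hH hi hT.he hT.even
  have hz0 : ∀ v, c v = 0 → p v = 0 ∧ lap H p v = 0 := by
    intro v hv
    exact ⟨congrArg Prod.fst hv, by rw [hlp v, hv, kf_zero_left]⟩
  have hz1 : ∀ v, c v = wd H (qT M T) v → p v = qT M T v ∧ lap H p v = lap H (qT M T) v := by
    intro v hv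
    exact ⟨congrArg Prod.fst hv, by rw [hlp v, hv, lap_kf_wd]⟩
  have hlg : lap H p g = 1 := by rw [hlp g, hg]
  have hl0 : ∀ v, v ∉ T → v ≠ g → lap H p v = 0 := by
    intro v hvT hvg
    by_cases hw : wd H (qT M T) v = 0
    · rw [hlp v]
      exact h2 v hvg hw
    · rcases h1 v hvg hw with h | h
      · exact (hz0 v h).2
      · rw [(hz1 v h).2, hlq, if_neg hvT]
  have hsum : ∀ f : V → ZMod 2, ∑ v, f v * lap H p v = ∑ x ∈ T, f x * lap H p x + f g := by
    intro f
    have h1 : ∑ v, f v * lap H p v = ∑ x ∈ insert g T, f x * lap H p x := by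
      symm
      apply Finset.sum_subset (Finset.subset_univ _)
      intro x _ hx
      rw [Finset.mem_insert, not_or] at hx
      rw [hl0 x hx.2 hx.1, mul_zero]
    rw [h1, Finset.sum_insert hgT, hlg, mul_one, add_comm]
  refine ⟨lap H p, ?_, ?_, ?_⟩
  · have h1 := hsum (fun _ => 1)
    simp only [one_mul] at h1
    rw [lap_sum hH.sym] at h1
    revert h1
    generalize ∑ x ∈ T, lap H p x = a
    revert a
    decide
  · intro w hw
    rw [← hsum, ← recover hH hi.sym hi.zero hi.inv p hce w]
    have hwg : w ≠ g := fun h => hgT (h ▸ hw)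
    have h6 : qT M T w = 1 := hT.col w hw
    have hww : wd H (qT M T) w ≠ 0 := by
      intro h0
      have h5 := (wd_eq_zero_iff hH hi hT w).1 h0
      rw [h5] at h6
      exact absurd h6 (by decide)
    rcases h1 w hwg hww with h | h
    · rw [(hz0 w h).1, (hz0 w h).2]
    · rw [(hz1 w h).1, (hz1 w h).2, hlq, if_pos hw, h6]
  · intro w hw hwY
    rw [← hsum, ← recover hH hi.sym hi.zero hi.inv p hce w]
    exact h3 w ((wd_eq_zero_iff hH hi hT w).2 hw) hwY

/-- a splitting word gives a splitting set -/
theorem sp_of_splits (hH : IsMat B H) (hi : Inv e H M) {T : Finset V} (hT : TT e M T) {g : V}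
    (hs : Splits B (wd H (qT M T)) g) : Sp M T g ∅ := by
  obtain ⟨c₁, hc₁, c₂, hc₂, hs, hg1, hg2, hd⟩ := hs
  have hsv : ∀ v, c₁ v + c₂ v = wd H (qT M T) v := fun v => congrFun hs v
  have hwg : wd H (qT M T) g = 0 := by
    rw [← hsv g, hg1, hg2, k_add_self]
  have hgT : g ∉ T := by
    intro hg
    have h1 := (wd_eq_zero_iff hH hi hT g).1 hwg
    have h2 : qT M T g = 1 := hT.col g hg
    rw [h1] at h2
    exact absurd h2 (by decide)
  have hor : ∀ v, v ≠ g → c₁ v = 0 ∨ c₁ v = wd H (qT M T) v := by
    intro v hv
    rcases hd v hv with h | h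
    · exact Or.inl h
    · right
      rw [← hsv v, h, add_zero]
  have h0 : ∀ v, wd H (qT M T) v = 0 → (c₁ v).1 = 0 := by
    intro v hv
    by_cases hvg : v = g
    · rw [hvg, hg1]
      rfl
    · rcases hor v hvg with h | h
      · rw [h]
        rfl
      · rw [h, hv]
        rfl
  refine sp_of_word hH hi hT hc₁ hgT (h0 e (wd_e hH hi hT)) ?_ (fun v hv _ => hor v hv) ?_
    (fun v hv _ => h0 v hv)
  · rw [hg1]
    simp [kf, z, om]
  · intro v hvg hv
    rcases hor v hvg with h | h
    · rw [h, kf_zero_left]
    · rw [h, hv, kf_zero_left]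

/-- **own places** -/
theorem own (hB : IsCode B) (hS : RSides B e S) (hH : IsMat B H) (hi : Inv e H M)
    {T : Finset V} (hT : TT e M T) {Y : Finset V} (hY : S (wd H (qT M T)) Y) {y : V}
    (hy : y ∈ Y) : Sp M T y Y := by
  set w := wd H (qT M T) with hw
  have hwe : w e = 0 := wd_e hH hi hT
  have heY : e ∉ Y := hS.root _ _ hY
  have hwY : ∀ v ∈ Y, w v = 0 := hS.zero _ _ hY
  set P : Submodule (ZMod 2) (V → K) :=
    { carrier := {p | ∀ v, (w v ≠ 0 → kf (p v) (w v) = 0) ∧ (v ∈ Y → kf (p v) (om H v) = 0)}
      zero_mem' := fun v => ⟨fun _ => kf_zero_left _, fun _ => kf_zero_left _⟩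
      add_mem' := by
        intro a b ha hb v
        refine ⟨fun h => ?_, fun h => ?_⟩
        · rw [Pi.add_apply, kf_add_left, (ha v).1 h, (hb v).1 h, add_zero]
        · rw [Pi.add_apply, kf_add_left, (ha v).2 h, (hb v).2 h, add_zero]
      smul_mem' := by
        intro c a ha v
        have hk : ∀ t : K, kf ((c • a) v) t = c * kf (a v) t := by
          intro t
          simp only [kf, Pi.smul_apply, Prod.smul_fst, Prod.smul_snd, smul_eq_mul]
          ring
        refine ⟨fun h => ?_, fun h => ?_⟩
        · rw [hk, (ha v).1 h, mul_zero]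
        · rw [hk, (ha v).2 h, mul_zero] } with hPdef
  have hmem : ∀ p : V → K, p ∈ P ↔
      ∀ v, (w v ≠ 0 → kf (p v) (w v) = 0) ∧ (v ∈ Y → kf (p v) (om H v) = 0) := fun p => Iff.rfl
  have hsingle : ∀ (v : V) (a : K), (w v ≠ 0 → kf a (w v) = 0) → (v ∈ Y → kf a (om H v) = 0) →
      (Pi.single v a : V → K) ∈ P := by
    intro v a h1 h2
    rw [hmem]
    intro x
    by_cases hx : x = v
    · subst hx
      rw [Pi.single_eq_same]
      exact ⟨h1, h2⟩
    · rw [Pi.single_eq_of_ne hx]
      exact ⟨fun _ => kf_zero_left _, fun _ => kf_zero_left _⟩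
  obtain ⟨l, hl, p, hp, hlp⟩ := mem_sup_of_orth hB P (Pi.single y z) (by
    intro u hu hup
    have hu1 : ∀ v, w v ≠ 0 → u v = 0 ∨ u v = w v := by
      intro v hv
      rw [← kf_eq_zero_iff _ _ hv, ← form_single]
      exact hup _ (hsingle v (w v) (fun _ => kf_self _) (fun h => absurd (hwY v h) hv))
    have hu2 : ∀ v ∈ Y, kf (u v) (om H v) = 0 := by
      intro v hv
      rw [← form_single]
      exact hup _ (hsingle v (om H v) (fun h => absurd (hwY v hv) h) (fun _ => kf_self _))
    have hu3 : ∀ v, w v = 0 → v ∉ Y → u v = 0 := by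
      intro v hv hvY
      have h1 : ∀ a : K, kf (u v) a = 0 := by
        intro a
        rw [← form_single]
        exact hup _ (hsingle v a (fun h => absurd hv h) (fun h => absurd h hvY))
      have h2 := h1 (1, 0)
      have h3 := h1 (0, 1)
      revert h2 h3
      generalize u v = a
      revert a
      decide
    have hsm := small hH hi hT hu hu1 (by
      intro v hv
      by_cases hvY : v ∈ Y
      · exact hu2 v hvY
      · rw [hu3 v hv hvY, kf_zero_left]) (hu3 e hwe heY)
    rw [form_comm, form_single]
    rcases hsm with h | h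
    · rw [h]
      exact kf_zero_left _
    · rw [h, ← hw, hwY y hy, kf_zero_left])
  have hlv : ∀ v, l v = (Pi.single y z : V → K) v + p v := by
    intro v
    have h1 := congrFun hlp v
    rw [Pi.add_apply] at h1
    rw [← h1, add_assoc, k_add_self, add_zero]
  have hl1 : ∀ v, w v ≠ 0 → l v = 0 ∨ l v = w v := by
    intro v hv
    rw [← kf_eq_zero_iff _ _ hv, hlv v, Pi.single_eq_of_ne (fun h => hv (by rw [h]; exact hwY y hy)),
      zero_add]
    exact ((hmem p).1 hp v).1 hv
  have hl2 : ∀ v ∈ Y, kf (l v) (om H v) = if v = y then 1 else 0 := by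
    intro v hv
    rw [hlv v, kf_add_left, ((hmem p).1 hp v).2 hv, add_zero]
    by_cases hvy : v = y
    · subst hvy
      rw [Pi.single_eq_same, if_pos rfl]
      simp [kf, z, om]
    · rw [Pi.single_eq_of_ne hvy, if_neg hvy, kf_zero_left]
  obtain ⟨k', hk', a1, a2, a3⟩ := hS.part _ _ hY l hl hl1
  have hyT : y ∉ T := by
    intro h
    have h1 := (wd_eq_zero_iff hH hi hT y).1 (hwY y hy)
    have h2 : qT M T y = 1 := hT.col y h
    rw [h1] at h2
    exact absurd h2 (by decide)
  refine sp_of_word hH hi hT hk' hyT (by rw [a2 e hwe heY]; rfl) ?_ (fun v _ hv => a3 v hv) ?_ ?_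
  · rw [a1 y hy, hl2 y hy, if_pos rfl]
  · intro v hvy hv
    by_cases hvY : v ∈ Y
    · rw [a1 v hvY, hl2 v hvY, if_neg hvy]
    · rw [a2 v hv hvY, kf_zero_left]
  · intro v hv hvY
    rw [a2 v hv hvY]
    rfl

/-- closed pairs are closed irreducible sets -/
theorem tt_pair (hi : Inv e H M) {u v : V} (h : CP M u v) : TT e M {u, v} := by
  obtain ⟨huu, huv⟩ := h
  have hne : u ≠ v := by
    rintro rfl
    exact huv rfl
  have hue : e ≠ u := by
    rintro rfl
    exact huv (by rw [hi.zero, hi.zero])
  have hve : e ≠ v := by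
    rintro rfl
    exact huv (by rw [hi.sym u e, hi.zero, huu, hi.zero])
  refine ⟨by simp [hue, hve], ⟨u, by simp⟩, by rw [Finset.sum_pair hne]; decide, ?_, ?_⟩
  · intro w hw
    rw [Finset.sum_pair hne]
    rcases Finset.mem_insert.1 hw with rfl | hw
    · revert huv
      generalize M w w = a
      generalize M w v = b
      revert a b
      decide
    · rw [Finset.mem_singleton] at hw
      subst hw
      rw [hi.sym w u, ← huu]
      revert huv
      generalize M u u = a
      generalize M u w = b
      revert a b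
      decide
  · intro s hs _
    rw [Finset.sum_pair hne] at hs
    have h9 : s u = s v := by
      revert hs
      generalize s u = a
      generalize s v = b
      revert a b
      decide
    rcases Pool.Agent.H77.P3.z2 (s u) with h | h
    · left
      intro x hx
      rw [Finset.mem_insert, Finset.mem_singleton] at hx
      rcases hx with rfl | rfl
      · exact h
      · rw [← h9]
        exact h
    · right
      intro x hx
      rw [Finset.mem_insert, Finset.mem_singleton] at hx
      rcases hx with rfl | rfl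
      · exact h
      · rw [← h9]
        exact h

/-- paths with the colours `0110` are closed irreducible sets -/
theorem tt_p4 (hi : Inv e H M) {a b c d : V} (h4 : IsP4 M a b c d) (haa : M a a = 0)
    (hbb : M b b = 1) (hcc : M c c = 1) (hdd : M d d = 0) : TT e M {a, b, c, d} := by
  obtain ⟨hab, hbc, hcd, hac, had, hbd⟩ := h4
  have hM := hi.sym
  have he := hi.zero
  have n01 : (0 : ZMod 2) ≠ 1 := by decide
  have nab : a ≠ b := by
    rintro rfl
    exact n01 (haa.symm.trans hbb)
  have nac : a ≠ c := by
    rintro rfl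
    exact n01 (haa.symm.trans hcc)
  have nad : a ≠ d := by
    rintro rfl
    exact n01 (hbd.symm.trans (by rw [hM b a]; exact hab))
  have nbc : b ≠ c := by
    rintro rfl
    exact n01 (hac.symm.trans hab)
  have nbd : b ≠ d := by
    rintro rfl
    exact n01 (hdd.symm.trans hbb)
  have ncd : c ≠ d := by
    rintro rfl
    exact n01 (hdd.symm.trans hcc)
  have nea : e ≠ a := by
    rintro rfl
    exact n01 ((he b).symm.trans hab)
  have neb : e ≠ b := by
    rintro rfl
    exact n01 ((he c).symm.trans hbc)
  have nec : e ≠ c := by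
    rintro rfl
    exact n01 ((he d).symm.trans hcd)
  have ned : e ≠ d := by
    rintro rfl
    exact n01 ((he c).symm.trans (by rw [hM e c]; exact hcd))
  have hsum : ∀ f : V → ZMod 2, ∑ x ∈ ({a, b, c, d} : Finset V), f x =
      f a + (f b + (f c + f d)) := by
    intro f
    rw [Finset.sum_insert (by simp [nab, nac, nad]), Finset.sum_insert (by simp [nbc, nbd]),
      Finset.sum_pair ncd]
  refine ⟨by simp [nea, neb, nec, ned], ⟨a, by simp⟩, by rw [hsum]; decide, ?_, ?_⟩
  · intro w hw
    rw [hsum]
    simp only [Finset.mem_insert, Finset.mem_singleton] at hw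
    rcases hw with rfl | rfl | rfl | rfl
    · rw [haa, hab, hac, had]; decide
    · rw [hM w a, hab, hbb, hbc, hbd]; decide
    · rw [hM w a, hM w b, hac, hbc, hcc, hcd]; decide
    · rw [hM w a, hM w b, hM w c, had, hbd, hcd, hdd]; decide
  · intro s hs0 hs
    rw [hsum] at hs0
    have ha := hs a (by simp)
    have hb := hs b (by simp)
    have hc := hs c (by simp)
    have hd := hs d (by simp)
    rw [hsum] at ha hb hc hd
    rw [haa, hab, hac, had] at ha
    rw [hM b a, hab, hbb, hbc, hbd] at hb
    rw [hM c a, hM c b, hac, hbc, hcc, hcd] at hc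
    rw [hM d a, hM d b, hM d c, had, hbd, hcd, hdd] at hd
    have key : (s a = 0 ∧ s b = 0 ∧ s c = 0 ∧ s d = 0) ∨
        (s a = 1 ∧ s b = 1 ∧ s c = 1 ∧ s d = 1) := by
      clear hs
      revert hs0 ha hb hc hd
      generalize s a = x
      generalize s b = y
      generalize s c = p
      generalize s d = q
      revert x y p q
      decide
    rcases key with ⟨k1, k2, k3, k4⟩ | ⟨k1, k2, k3, k4⟩
    · left
      intro x hx
      simp only [Finset.mem_insert, Finset.mem_singleton] at hx
      rcases hx with rfl | rfl | rfl | rfl <;> assumption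
    · right
      intro x hx
      simp only [Finset.mem_insert, Finset.mem_singleton] at hx
      rcases hx with rfl | rfl | rfl | rfl <;> assumption

theorem tt_good (hi : Inv e H M) {T : Finset V} (h : Good M T) : TT e M T := by
  rcases h with ⟨u, v, h, rfl⟩ | ⟨a, b, c, d, h4, haa, hbb, hcc, hdd, rfl⟩
  · exact tt_pair hi h
  · exact tt_p4 hi h4 haa hbb hcc hdd

/-- the data of the matrix part -/
theorem ms (hB : IsCode B) (hS : RSides B e S) (hH : IsMat B H) (hi : Inv e H M) :
    MS M (fun T Y => S (wd H (qT M T)) Y) where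
  sym := hi.sym
  ex := by
    intro T hg
    have hT := tt_good hi hg
    rcases hS.ex _ (wd_mem hH _) (wd_zfree hH hi hT) (wd_e hH hi hT) (wd_ne hH hi hT)
      (irr_wd hH hi hT) with ⟨g, h⟩ | h
    · exact Or.inl ⟨g, sp_of_splits hH hi hT h⟩
    · exact Or.inr h
  own := by
    intro T Y hg hY y hy
    exact own hB hS hH hi (tt_good hi hg) hY hy
  zero := by
    intro T Y hg hY y hy
    exact (wd_eq_zero_iff hH hi (tt_good hi hg) y).1 (hS.zero _ _ hY y hy)
  mono := by
    intro T Y hg hY T' hg' h1 h2
    have hT := tt_good hi hg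
    have hT' := tt_good hi hg'
    rcases hS.mono _ _ hY (irr_wd hH hi hT) _ (wd_mem hH _) (wd_zfree hH hi hT')
      (wd_ne hH hi hT') (irr_wd hH hi hT') (by
        intro v hv
        have hv' : ∑ x ∈ T, M v x ≠ 0 := fun h => hv ((wd_eq_zero_iff hH hi hT v).2 h)
        rcases h2 v hv' with ⟨b1, _⟩ | ⟨b1, b2⟩
        · exact Or.inl ((wd_eq_zero_iff hH hi hT' v).2 b1)
        · right
          have b3 : qT M T' v = 1 := b1
          have b4 : qT M T v = 1 := (Pool.Agent.H77.P3.z2 _).resolve_left hv'
          rw [wd_qT hH hi hT.he hT.even, wd_qT hH hi hT'.he hT'.even, b3, b4]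
          simp only [b2]) (by
        intro v hv hvY
        exact (wd_eq_zero_iff hH hi hT' v).2
          (h1 v ((wd_eq_zero_iff hH hi hT v).1 hv) hvY).1) with ⟨g, h⟩ | h
    · exact Or.inl ⟨g, sp_of_splits hH hi hT' h⟩
    · exact Or.inr h

/-- **the code side for rooted sides** -/
theorem code_side (hB : IsCode B) (hS : RSides B e S) (hH : IsMat B H) :
    ∃ M : V → V → ZMod 2, (∀ x y, M x y = M y x) ∧ (∀ x, M e x = 0) ∧
      (∀ u, u ≠ e → ∀ v, (∑ w, H u w * (M u v + M w v)) = if u = v then 1 else 0) ∧
      Pairs M ∧ P4Split M := by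
  obtain ⟨M, hM, he, hi⟩ := exists_inv' hB hS hH
  have h := ms hB hS hH (⟨hM, he, hi⟩ : Inv e H M)
  exact ⟨M, hM, he, hi, h.pairs, h.p4split⟩

end

end Pool.Agent.H97.Q
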