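import Pool.Agent.H97.Q.Code
import Pool.Agent.H17.P3.TreeEnd

set_option autoImplicit false

/-!
The rooted tree theorem for weights without removable circuits (MP_a46c6f_co).
-/

namespace Pool.Agent.H97.Q

open Pool.Agent.H98.Code Pool.Agent.H17.TR Pool.Agent.H17.P3 Pool.Agent.H77.Q

/-- **the rooted tree theorem** in matrix form -/
theorem tree_H (V : Type) [Fintype V] [DecidableEq V] (L : Submodule (ZMod 2) (V → K)) (e : V)
    (S : (V → K) → Finset V → Prop) (H : V → V → ZMod 2) (hL : IsCode L) (hS : RSides L e S)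
    (hH : IsMat L H) : (GrH H).IsTree := by
  obtain ⟨M, hs, he, hinv, hp, h4⟩ := code_side hL hS hH
  exact tree_end V e H M hH.sym hs he hinv hp (Pool.Agent.H81.P4.P3_holds V M hs hp h4)

/-- **the rooted tree theorem** -/
theorem tree (X : Type) [Fintype X] [DecidableEq X] (B : Submodule (ZMod 2) (X → K)) (r : X)
    (S : (X → K) → Finset X → Prop) (hB : IsCode B) (hz : NoZ B) (hS : RSides B r S) :
    (graph B).IsTree := by
  obtain ⟨H, hs, hm⟩ := exists_matrix hB hz
  have hH : IsMat B H := ⟨hs, hm⟩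
  have hH' : Pool.Agent.H32.AA.IsMat B H := ⟨hs, hm⟩
  have heq : graph B = GrH H := by
    ext v w
    rw [Pool.Agent.H32.AA.adj_iff hH', hH.adj]
  rw [heq]
  exact tree_H X B r S H hB hS hH

end Pool.Agent.H97.Q
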